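import Mathlib

set_option autoImplicit false

namespace Pool.Agent.Results.MP_18fff8_lc.NoBiEmbClass

open Nat.Partrec (Code)
open Nat.Partrec.Code

/-- A computable relational language: the relation symbols form a computable set of natural
numbers, and the arity function is computable. -/
structure Lang where
  sym : ℕ → Bool
  ar : ℕ → ℕ
  sym_comp : Computable sym
  ar_comp : Computable ar

/-- A relational structure whose universe `U` is a set of natural numbers; `R i xs` says that the
relation symbol `i` holds of the tuple `xs`. Only tuples of elements of `U`, of the right length,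
and only symbols of the language matter. -/
structure Str where
  U : Set ℕ
  R : ℕ → List ℕ → Prop

/-- `xs` is a tuple of elements of `A` to which the relation symbol `i` of `L` applies. -/
def Tup (L : Lang) (A : Str) (i : ℕ) (xs : List ℕ) : Prop :=
  L.sym i = true ∧ xs.length = L.ar i ∧ ∀ x ∈ xs, x ∈ A.U

/-- `h` is a model-theoretic embedding of `A` into `B`. -/
def IsEmb (L : Lang) (A B : Str) (h : ℕ → ℕ) : Prop :=
  (∀ x ∈ A.U, h x ∈ B.U) ∧ (∀ x ∈ A.U, ∀ y ∈ A.U, h x = h y → x = y) ∧
    ∀ i xs, Tup L A i xs → (A.R i xs ↔ B.R i (xs.map h))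

/-- `h` is an isomorphism of `A` onto `B`. -/
def IsIso (L : Lang) (A B : Str) (h : ℕ → ℕ) : Prop :=
  IsEmb L A B h ∧ ∀ y ∈ B.U, ∃ x ∈ A.U, h x = y

/-- `A` and `B` are bi-embeddable. -/
def BiEmb (L : Lang) (A B : Str) : Prop :=
  (∃ h, IsEmb L A B h) ∧ (∃ h, IsEmb L B A h)

/-- The atomic diagram of `A`, as a set of natural numbers: `⟨0, x⟩` codes that `x` is in the
universe, `⟨1, (i, xs)⟩` codes the atomic fact `R_i(xs)`. -/
def diagram (L : Lang) (A : Str) : Set ℕ :=
  {n | (∃ x ∈ A.U, n = Nat.pair 0 x) ∨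
    ∃ i xs, Tup L A i xs ∧ A.R i xs ∧ n = Nat.pair 1 (Encodable.encode (i, xs))}

open Classical in
/-- `e` is an index of the computable structure `A`: the `e`-th partial computable function is the
characteristic function of the atomic diagram of `A`. -/
def IsIndex (L : Lang) (e : ℕ) (A : Str) : Prop :=
  ∀ n, eval (Denumerable.ofNat Code e) n = Part.some (if n ∈ diagram L A then 1 else 0)

/-- `I_K`, the set of indices of the computable structures in the class `K`. -/
def IndexSet (L : Lang) (K : Str → Prop) : Set ℕ :=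
  {e | ∃ A, K A ∧ IsIndex L e A}

/-- The bi-embeddability relation on indices. -/
def IdxBiEmb (L : Lang) (e e' : ℕ) : Prop :=
  ∃ A A', IsIndex L e A ∧ IsIndex L e' A' ∧ BiEmb L A A'

/-- Computable reducibility of the relation `E` on `X` to the relation `F` on `Y`: a partial
computable `f` defined on all of `X`, mapping `X` into `Y`, with `x E x' ↔ f x F f x'`. -/
def CReduces (X : Set ℕ) (E : ℕ → ℕ → Prop) (Y : Set ℕ) (F : ℕ → ℕ → Prop) : Prop :=
  ∃ f : ℕ →. ℕ, Partrec f ∧ (∀ x ∈ X, ∃ y ∈ f x, y ∈ Y) ∧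
    ∀ x ∈ X, ∀ x' ∈ X, ∀ y ∈ f x, ∀ y' ∈ f x', (E x x' ↔ F y y')

/-- A binary relation on the natural numbers is `Σ¹₁` (normal form): there is a computable `R` with
`E x y` iff for some `f : ℕ → ℕ`, for all `n`, `R (x, y, (f 0, ..., f (n-1)))`. -/
def IsSigma11 (E : ℕ → ℕ → Prop) : Prop :=
  ∃ R : ℕ × ℕ × List ℕ → Bool, Computable R ∧
    ∀ x y, E x y ↔ ∃ f : ℕ → ℕ, ∀ n, R (x, y, (List.range n).map f) = true

/-! ### Bounded quantifiers and search for computable functions -/

/-- bounded universal quantifier -/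
def ball (n : ℕ) (q : ℕ → Bool) : Bool :=
  Nat.rec (motive := fun _ => Bool) true (fun k acc => acc && q k) n

theorem ball_iff (n : ℕ) (q : ℕ → Bool) : ball n q = true ↔ ∀ k < n, q k = true := by
  induction n with
  | zero => simp [ball]
  | succ n ih =>
    have : ball (n + 1) q = (ball n q && q n) := rfl
    rw [this, Bool.and_eq_true, ih]
    constructor
    · rintro ⟨h1, h2⟩ k hk
      rcases Nat.lt_succ_iff_lt_or_eq.1 hk with h | h
      · exact h1 k h
      · exact h ▸ h2
    · intro h
      exact ⟨fun k hk => h k (Nat.lt_succ_of_lt hk), h n (Nat.lt_succ_self n)⟩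

theorem ball_comp {α : Type} [Primcodable α] {g : α → ℕ} {q : α → ℕ → Bool}
    (hg : Computable g) (hq : Computable₂ q) : Computable fun a => ball (g a) (q a) := by
  have h1 : Computable fun p : α × ℕ × Bool => p.2.2 := Computable.snd.comp Computable.snd
  have h2 : Computable fun p : α × ℕ × Bool => q p.1 p.2.1 :=
    hq.comp Computable.fst (Computable.fst.comp Computable.snd)
  have h3 : Computable₂ fun (a : α) (p : ℕ × Bool) => p.2 && q a p.1 :=
    (Primrec.and.to_comp.comp h1 h2).to₂
  exact (Computable.nat_rec hg (Computable.const true) h3).of_eq fun a => rfl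

theorem search {α : Type} [Primcodable α] {q : α → ℕ → Bool} (hq : Computable₂ q)
    (H : ∀ a, ∃ n, q a n = true) : ∃ F : α → ℕ, Computable F ∧ ∀ a, q a (F a) = true := by
  classical
  have hP : ComputablePred (fun p : α × ℕ => q p.1 p.2 = true) :=
    Computable.computablePred (by
      have : Computable fun p : α × ℕ => q p.1 p.2 := hq
      simpa using this)
  exact ⟨_, Computable.find (P := fun a n => q a n = true) hP H, fun a => Nat.find_spec (H a)⟩


/-! ### Basic facts on diagrams and embeddings -/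

theorem mem_diag_zero (L : Lang) (A : Str) (x : ℕ) : Nat.pair 0 x ∈ diagram L A ↔ x ∈ A.U := by
  constructor
  · rintro (⟨y, hy, h⟩ | ⟨i, xs, h1, h2, h3⟩)
    · rw [(Nat.pair_eq_pair.1 h).2]; exact hy
    · exact absurd (Nat.pair_eq_pair.1 h3).1 (by decide)
  · intro h; exact Or.inl ⟨x, h, rfl⟩

theorem mem_diag_one (L : Lang) (A : Str) (i : ℕ) (xs : List ℕ) :
    Nat.pair 1 (Encodable.encode (i, xs)) ∈ diagram L A ↔ Tup L A i xs ∧ A.R i xs := by
  constructor
  · rintro (⟨y, hy, h⟩ | ⟨j, ys, h1, h2, h3⟩)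
    · exact absurd (Nat.pair_eq_pair.1 h).1 (by decide)
    · have := Encodable.encode_injective (Nat.pair_eq_pair.1 h3).2
      obtain ⟨rfl, rfl⟩ := Prod.mk.inj this
      exact ⟨h1, h2⟩
  · rintro ⟨h1, h2⟩; exact Or.inr ⟨i, xs, h1, h2, rfl⟩

theorem not_mem_diag (L : Lang) (A : Str) (a m : ℕ) (h0 : a ≠ 0) (h1 : a ≠ 1) :
    Nat.pair a m ∉ diagram L A := by
  rintro (⟨y, hy, h⟩ | ⟨j, ys, h2, h3, h4⟩)
  · exact h0 (Nat.pair_eq_pair.1 h).1
  · exact h1 (Nat.pair_eq_pair.1 h4).1

theorem emb_comp (L : Lang) {A B C : Str} {h k : ℕ → ℕ} (hh : IsEmb L A B h)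
    (hk : IsEmb L B C k) : IsEmb L A C (k ∘ h) := by
  refine ⟨fun x hx => hk.1 _ (hh.1 x hx), fun x hx y hy e => ?_, fun i xs ht => ?_⟩
  · exact hh.2.1 x hx y hy (hk.2.1 _ (hh.1 x hx) _ (hh.1 y hy) e)
  · rw [hh.2.2 i xs ht, ← List.map_map]
    refine hk.2.2 i _ ⟨ht.1, by simpa using ht.2.1, ?_⟩
    intro y hy
    obtain ⟨x, hx, rfl⟩ := List.mem_map.1 hy
    exact hh.1 x (ht.2.2 x hx)

theorem iso_symm (L : Lang) {A B : Str} {h : ℕ → ℕ} (hh : IsIso L A B h) :
    ∃ k, IsIso L B A k := by
  classical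
  obtain ⟨⟨h1, h2, h3⟩, h4⟩ := hh
  choose! k hk1 hk2 using h4
  refine ⟨k, ⟨hk1, fun x hx y hy e => ?_, fun i ys ht => ?_⟩, fun x hx => ?_⟩
  · rw [← hk2 x hx, ← hk2 y hy, e]
  · have e : (ys.map k).map h = ys := by
      rw [List.map_map]
      conv_rhs => rw [← List.map_id ys]
      exact List.map_congr_left fun y hy => hk2 y (ht.2.2 y hy)
    have ht' : Tup L A i (ys.map k) := by
      refine ⟨ht.1, by simpa using ht.2.1, ?_⟩
      intro x hx
      obtain ⟨y, hy, rfl⟩ := List.mem_map.1 hx
      exact hk1 y (ht.2.2 y hy)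
    have := h3 i _ ht'
    rw [e] at this
    exact this.symm
  · exact ⟨h x, h1 x hx, h2 _ (hk1 _ (h1 x hx)) _ hx (hk2 _ (h1 x hx))⟩

theorem id_iso_of_diagram (L : Lang) {A B : Str} (e : diagram L A = diagram L B) :
    IsIso L A B id := by
  have hU : ∀ x, x ∈ A.U ↔ x ∈ B.U := fun x => by
    rw [← mem_diag_zero L A, ← mem_diag_zero L B, e]
  refine ⟨⟨fun x hx => (hU x).1 hx, fun x _ y _ h => h, fun i xs ht => ?_⟩,
    fun y hy => ⟨y, (hU y).2 hy, rfl⟩⟩
  have ht' : Tup L B i xs := ⟨ht.1, ht.2.1, fun x hx => (hU x).1 (ht.2.2 x hx)⟩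
  have h1 := mem_diag_one L A i xs
  have h2 := mem_diag_one L B i xs
  rw [e] at h1
  rw [List.map_id]
  constructor
  · intro h; exact (h2.1 (h1.2 ⟨ht, h⟩)).2
  · intro h; exact (h1.1 (h2.2 ⟨ht', h⟩)).2

theorem index_unique (L : Lang) {e : ℕ} {A B : Str} (hA : IsIndex L e A) (hB : IsIndex L e B) :
    diagram L A = diagram L B := by
  classical
  ext n
  have h := (hA n).symm.trans (hB n)
  have h' := Part.some_inj.1 h
  by_cases h1 : n ∈ diagram L A <;> by_cases h2 : n ∈ diagram L B <;> simp_all

theorem biemb_of_iso (L : Lang) {A B : Str} {h : ℕ → ℕ} (hh : IsIso L A B h) : BiEmb L A B := by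
  obtain ⟨k, hk⟩ := iso_symm L hh
  exact ⟨⟨h, hh.1⟩, ⟨k, hk.1⟩⟩

theorem biemb_symm (L : Lang) {A B : Str} (h : BiEmb L A B) : BiEmb L B A := ⟨h.2, h.1⟩

theorem biemb_trans (L : Lang) {A B C : Str} (h : BiEmb L A B) (h' : BiEmb L B C) :
    BiEmb L A C := by
  obtain ⟨⟨a, ha⟩, ⟨b, hb⟩⟩ := h
  obtain ⟨⟨c, hc⟩, ⟨d, hd⟩⟩ := h'
  exact ⟨⟨_, emb_comp L ha hc⟩, ⟨_, emb_comp L hd hb⟩⟩

theorem idx_iff (L : Lang) {e e' : ℕ} {A A' : Str} (h : IsIndex L e A) (h' : IsIndex L e' A') :
    IdxBiEmb L e e' ↔ BiEmb L A A' := by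
  constructor
  · rintro ⟨B, B', hB, hB', hbi⟩
    have i1 := biemb_of_iso L (id_iso_of_diagram L (index_unique L h hB))
    have i2 := biemb_of_iso L (id_iso_of_diagram L (index_unique L hB' h'))
    exact biemb_trans L (biemb_trans L i1 hbi) i2
  · intro hbi; exact ⟨A, A', h, h', hbi⟩

/-- Sanity check: every structure with a computable atomic diagram has an index. -/
theorem exists_index (L : Lang) (A : Str) (h : ComputablePred fun n => n ∈ diagram L A) :
    ∃ e, IsIndex L e A := by
  classical
  have h1 : Computable fun n => (bif decide (n ∈ diagram L A) then 1 else 0 : ℕ) :=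
    Computable.cond h.decide (Computable.const 1) (Computable.const 0)
  obtain ⟨c, hc⟩ := exists_code.1 (Partrec.nat_iff.1 h1.partrec)
  refine ⟨Encodable.encode c, fun n => ?_⟩
  rw [Denumerable.ofNat_encode, hc]
  by_cases hn : n ∈ diagram L A <;> simp [hn]

/-! ### Ages -/

/-- every finite part of `A` is realised in `B` -/
def AgeLe (L : Lang) (A B : Str) : Prop :=
  ∀ (S : Finset ℕ) (N : ℕ), (∀ x ∈ S, x ∈ A.U) → ∃ h : ℕ → ℕ, (∀ x ∈ S, h x ∈ B.U) ∧
    (∀ x ∈ S, ∀ y ∈ S, h x = h y → x = y) ∧
    ∀ i < N, ∀ xs, Tup L A i xs → (∀ x ∈ xs, x ∈ S) → (A.R i xs ↔ B.R i (xs.map h))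

theorem AgeLe.emb_right {L : Lang} {A B B' : Str} {k : ℕ → ℕ} (h : AgeLe L A B)
    (hk : IsEmb L B B' k) : AgeLe L A B' := by
  intro S N hS
  obtain ⟨f, f1, f2, f3⟩ := h S N hS
  refine ⟨k ∘ f, fun x hx => hk.1 _ (f1 x hx), fun x hx y hy e => ?_, fun i hi xs ht hxs => ?_⟩
  · exact f2 x hx y hy (hk.2.1 _ (f1 x hx) _ (f1 y hy) e)
  · rw [f3 i hi xs ht hxs, ← List.map_map]
    refine hk.2.2 i _ ⟨ht.1, by simpa using ht.2.1, ?_⟩
    intro y hy
    obtain ⟨x, hx, rfl⟩ := List.mem_map.1 hy
    exact f1 x (hxs x hx)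

theorem AgeLe.emb_left {L : Lang} {A A' B : Str} {k : ℕ → ℕ} (hk : IsEmb L A' A k)
    (h : AgeLe L A B) : AgeLe L A' B := by
  classical
  intro S N hS
  obtain ⟨f, f1, f2, f3⟩ := h (S.image k) N (by
    intro x hx
    obtain ⟨y, hy, rfl⟩ := Finset.mem_image.1 hx
    exact hk.1 y (hS y hy))
  refine ⟨f ∘ k, fun x hx => f1 _ (Finset.mem_image_of_mem k hx), fun x hx y hy e => ?_,
    fun i hi xs ht hxs => ?_⟩
  · exact hk.2.1 x (hS x hx) y (hS y hy)
      (f2 _ (Finset.mem_image_of_mem k hx) _ (Finset.mem_image_of_mem k hy) e)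
  · rw [hk.2.2 i xs ht, ← List.map_map]
    refine f3 i hi _ ⟨ht.1, by simpa using ht.2.1, ?_⟩ ?_
    · intro y hy
      obtain ⟨x, hx, rfl⟩ := List.mem_map.1 hy
      exact hk.1 x (ht.2.2 x hx)
    · intro y hy
      obtain ⟨x, hx, rfl⟩ := List.mem_map.1 hy
      exact Finset.mem_image_of_mem k (hxs x hx)

theorem ageLe_of_emb {L : Lang} {A B : Str} {k : ℕ → ℕ} (hk : IsEmb L A B k) : AgeLe L A B := by
  intro S N hS
  exact ⟨k, fun x hx => hk.1 x (hS x hx), fun x hx y hy e => hk.2.1 x (hS x hx) y (hS y hy) e,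
    fun i _ xs ht _ => hk.2.2 i xs ht⟩

/-- application of a finite function given by a list -/
def ap (h : List ℕ) (x : ℕ) : ℕ := h.getD x 0

/-- `h` realises in `B` the part of the diagram of `A` below `s` -/
def Good (L : Lang) (A : Str) (s : ℕ) (B : Str) (h : List ℕ) : Prop :=
  (∀ x < s, x ∈ A.U → ap h x ∈ B.U) ∧
  (∀ x < s, ∀ y < s, x ∈ A.U → y ∈ A.U → ap h x = ap h y → x = y) ∧
  ∀ i xs, Nat.pair 1 (Encodable.encode (i, xs)) < s → Tup L A i xs →
    (A.R i xs ↔ B.R i (xs.map (ap h)))

theorem mem_le_encode {x : ℕ} {xs : List ℕ} (h : x ∈ xs) : x ≤ Encodable.encode xs := by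
  induction xs with
  | nil => simp at h
  | cons y ys ih =>
    rw [Encodable.encode_list_cons]
    rcases List.mem_cons.1 h with rfl | h
    · exact (Nat.left_le_pair _ _).trans (Nat.le_succ _)
    · exact ((ih h).trans (Nat.right_le_pair _ _)).trans (Nat.le_succ _)

theorem code_bounds {i s : ℕ} {xs : List ℕ} (h : Nat.pair 1 (Encodable.encode (i, xs)) < s) :
    i < s ∧ ∀ x ∈ xs, x < s := by
  have h1 : Encodable.encode (i, xs) ≤ Nat.pair 1 (Encodable.encode (i, xs)) :=
    Nat.right_le_pair _ _
  have h2 : Encodable.encode (i, xs) = Nat.pair i (Encodable.encode xs) := by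
    simp [Encodable.encode_prod_val]
  constructor
  · have : i ≤ Nat.pair i (Encodable.encode xs) := Nat.left_le_pair _ _
    omega
  · intro x hx
    have h3 := mem_le_encode hx
    have : Encodable.encode xs ≤ Nat.pair i (Encodable.encode xs) := Nat.right_le_pair _ _
    omega

theorem ap_map_range {s x : ℕ} (f : ℕ → ℕ) (hx : x < s) : ap ((List.range s).map f) x = f x := by
  simp [ap, List.getD, hx]

theorem good_of_age {L : Lang} {A B : Str} (h : AgeLe L A B) (s : ℕ) :
    ∃ l, Good L A s B l := by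
  classical
  obtain ⟨f, f1, f2, f3⟩ := h ((Finset.range s).filter (· ∈ A.U)) s (by
    intro x hx; exact (Finset.mem_filter.1 hx).2)
  have hm : ∀ x, x < s → x ∈ A.U → x ∈ (Finset.range s).filter (· ∈ A.U) := fun x h1 h2 =>
    Finset.mem_filter.2 ⟨Finset.mem_range.2 h1, h2⟩
  refine ⟨(List.range s).map f, fun x hx hU => ?_, fun x hx y hy hxU hyU e => ?_,
    fun i xs hc ht => ?_⟩
  · rw [ap_map_range f hx]; exact f1 x (hm x hx hU)
  · rw [ap_map_range f hx, ap_map_range f hy] at e
    exact f2 x (hm x hx hxU) y (hm y hy hyU) e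
  · obtain ⟨hi, hxs⟩ := code_bounds hc
    rw [f3 i hi xs ht (fun x hx => hm x (hxs x hx) (ht.2.2 x hx))]
    have : xs.map f = xs.map (ap ((List.range s).map f)) :=
      List.map_congr_left fun x hx => (ap_map_range f (hxs x hx)).symm
    rw [this]


/-! ### The computable version of `Good` -/

theorem ap_prim : Primrec₂ ap := Primrec.list_getD 0

theorem ap_comp {α : Type} [Primcodable α] {f : α → List ℕ} {g : α → ℕ} (hf : Computable f)
    (hg : Computable g) : Computable fun a => ap (f a) (g a) :=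
  ap_prim.to_comp.comp hf hg

theorem map_ap_comp {α : Type} [Primcodable α] {f g : α → List ℕ} (hf : Computable f)
    (hg : Computable g) : Computable fun a => (g a).map (ap (f a)) := by
  have h : Primrec fun p : List ℕ × List ℕ => p.2.map (ap p.1) :=
    Primrec.list_map Primrec.snd (ap_prim.comp (Primrec.fst.comp Primrec.fst) Primrec.snd).to₂
  exact h.to_comp.comp (hf.pair hg)

/-- check of one code -/
def codeok (L : Lang) (a b : ℕ → Bool) (h : List ℕ) (n : ℕ) : Bool :=
  !(n.unpair.1 == 1) || (!(L.sym (Denumerable.ofNat (ℕ × List ℕ) n.unpair.2).1) ||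
    (!((Denumerable.ofNat (ℕ × List ℕ) n.unpair.2).2.length ==
        L.ar (Denumerable.ofNat (ℕ × List ℕ) n.unpair.2).1) ||
    (!(ball (Denumerable.ofNat (ℕ × List ℕ) n.unpair.2).2.length
        (fun k => a (Nat.pair 0 (ap (Denumerable.ofNat (ℕ × List ℕ) n.unpair.2).2 k)))) ||
    (a n == b (Nat.pair 1 (Encodable.encode ((Denumerable.ofNat (ℕ × List ℕ) n.unpair.2).1,
      (Denumerable.ofNat (ℕ × List ℕ) n.unpair.2).2.map (ap h))))))))

/-- computable version of `Good` -/
def goodb (L : Lang) (a b : ℕ → Bool) (s : ℕ) (h : List ℕ) : Bool :=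
  ball s (fun x => !(a (Nat.pair 0 x)) || b (Nat.pair 0 (ap h x))) &&
  (ball s (fun x => ball s (fun y => !(a (Nat.pair 0 x)) || (!(a (Nat.pair 0 y)) ||
    (!(ap h x == ap h y) || x == y)))) &&
  ball s (codeok L a b h))

theorem ball_mem (a : ℕ → Bool) (xs : List ℕ) :
    ball xs.length (fun k => a (Nat.pair 0 (ap xs k))) = true ↔
      ∀ x ∈ xs, a (Nat.pair 0 x) = true := by
  rw [ball_iff]
  constructor
  · intro h x hx
    obtain ⟨k, hk, rfl⟩ := List.mem_iff_getElem.1 hx
    have := h k hk
    simpa [ap, List.getD, hk] using this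
  · intro h k hk
    have : ap xs k = xs[k] := by simp [ap, List.getD, hk]
    rw [this]
    exact h _ (List.getElem_mem hk)

theorem codeok_iff (L : Lang) (a b : ℕ → Bool) (h : List ℕ) (i : ℕ) (xs : List ℕ) :
    codeok L a b h (Nat.pair 1 (Encodable.encode (i, xs))) = true ↔
      (L.sym i = true → xs.length = L.ar i → (∀ x ∈ xs, a (Nat.pair 0 x) = true) →
        a (Nat.pair 1 (Encodable.encode (i, xs))) =
          b (Nat.pair 1 (Encodable.encode (i, xs.map (ap h))))) := by
  unfold codeok
  rw [Nat.unpair_pair, Denumerable.ofNat_encode]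
  simp only [Bool.or_eq_true, Bool.not_eq_true', beq_self_eq_true, beq_iff_eq,
    beq_eq_false_iff_ne, ne_eq]
  rw [← Bool.not_eq_true (ball _ _), ball_mem, ← Bool.not_eq_true (L.sym i)]
  simp only [reduceCtorEq, false_or]
  tauto

theorem codeok_other (L : Lang) (a b : ℕ → Bool) (h : List ℕ) (n : ℕ) (hn : n.unpair.1 ≠ 1) :
    codeok L a b h n = true := by
  unfold codeok
  simp [hn]

theorem goodb_iff {L : Lang} {A B : Str} {a b : ℕ → Bool}
    (ha : ∀ n, a n = true ↔ n ∈ diagram L A) (hb : ∀ n, b n = true ↔ n ∈ diagram L B)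
    (s : ℕ) (h : List ℕ) : goodb L a b s h = true ↔ Good L A s B h := by
  have ha0 : ∀ x, a (Nat.pair 0 x) = true ↔ x ∈ A.U := fun x => by rw [ha, mem_diag_zero]
  have hb0 : ∀ x, b (Nat.pair 0 x) = true ↔ x ∈ B.U := fun x => by rw [hb, mem_diag_zero]
  have key1 : (ball s (fun x => !(a (Nat.pair 0 x)) || b (Nat.pair 0 (ap h x))) = true) ↔
      (∀ x < s, x ∈ A.U → ap h x ∈ B.U) := by
    rw [ball_iff]
    refine forall₂_congr fun x _ => ?_
    rw [Bool.or_eq_true, Bool.not_eq_true', ← Bool.not_eq_true, ha0, hb0]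
    tauto
  have key2 : (ball s (fun x => ball s (fun y => !(a (Nat.pair 0 x)) || (!(a (Nat.pair 0 y)) ||
    (!(ap h x == ap h y) || x == y)))) = true) ↔
      (∀ x < s, ∀ y < s, x ∈ A.U → y ∈ A.U → ap h x = ap h y → x = y) := by
    rw [ball_iff]
    refine forall₂_congr fun x _ => ?_
    rw [ball_iff]
    refine forall₂_congr fun y _ => ?_
    rw [Bool.or_eq_true, Bool.or_eq_true, Bool.or_eq_true, Bool.not_eq_true', ← Bool.not_eq_true,
      Bool.not_eq_true', ← Bool.not_eq_true, Bool.not_eq_true', ← Bool.not_eq_true, ha0, ha0,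
      beq_iff_eq, beq_iff_eq]
    tauto
  unfold goodb Good
  rw [Bool.and_eq_true, Bool.and_eq_true, key1, key2, ball_iff]
  constructor
  · rintro ⟨h1, h2, h3⟩
    refine ⟨h1, h2, fun i xs hc ht => ?_⟩
    have h4 := (codeok_iff L a b h i xs).1 (h3 _ hc) ht.1 ht.2.1 (fun x hx => (ha0 x).2 (ht.2.2 x hx))
    have h5 := ha (Nat.pair 1 (Encodable.encode (i, xs)))
    have h6 := hb (Nat.pair 1 (Encodable.encode (i, xs.map (ap h))))
    rw [mem_diag_one] at h5 h6
    have ht' : Tup L B i (xs.map (ap h)) := by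
      refine ⟨ht.1, by simpa using ht.2.1, ?_⟩
      intro y hy
      obtain ⟨x, hx, rfl⟩ := List.mem_map.1 hy
      exact h1 x ((code_bounds hc).2 x hx) (ht.2.2 x hx)
    rw [h4] at h5
    constructor
    · intro hr; exact (h6.1 (h5.2 ⟨ht, hr⟩)).2
    · intro hr; exact (h5.1 (h6.2 ⟨ht', hr⟩)).2
  · rintro ⟨h1, h2, h3⟩
    refine ⟨h1, h2, fun n hn => ?_⟩
    by_cases hn1 : n.unpair.1 = 1
    · obtain ⟨i, xs, hix⟩ : ∃ i xs, Denumerable.ofNat (ℕ × List ℕ) n.unpair.2 = (i, xs) :=
        ⟨_, _, rfl⟩
      have hne : n = Nat.pair 1 (Encodable.encode (i, xs)) := by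
        rw [← hix, Denumerable.encode_ofNat, ← hn1, Nat.pair_unpair]
      rw [hne] at hn ⊢
      rw [codeok_iff]
      intro q1 q2 q3
      have ht : Tup L A i xs := ⟨q1, q2, fun x hx => (ha0 x).1 (q3 x hx)⟩
      have h4 := h3 i xs hn ht
      have ht' : Tup L B i (xs.map (ap h)) := by
        refine ⟨ht.1, by simpa using ht.2.1, ?_⟩
        intro y hy
        obtain ⟨x, hx, rfl⟩ := List.mem_map.1 hy
        exact h1 x ((code_bounds hn).2 x hx) (ht.2.2 x hx)
      rw [Bool.eq_iff_iff, ha, hb, mem_diag_one, mem_diag_one, h4]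
      tauto
    · exact codeok_other L a b h n hn1

section combinators

variable {α : Type} [Primcodable α]

theorem cand {f g : α → Bool} (hf : Computable f) (hg : Computable g) :
    Computable fun a => f a && g a := Primrec.and.to_comp.comp hf hg

theorem cor {f g : α → Bool} (hf : Computable f) (hg : Computable g) :
    Computable fun a => f a || g a := Primrec.or.to_comp.comp hf hg

theorem cnot {f : α → Bool} (hf : Computable f) : Computable fun a => !(f a) :=
  Primrec.not.to_comp.comp hf

theorem cbeqN {f g : α → ℕ} (hf : Computable f) (hg : Computable g) :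
    Computable fun a => (f a == g a) := by
  have : Primrec₂ fun m n : ℕ => (m == n) := Primrec.beq
  exact this.to_comp.comp hf hg

theorem cbeqB {f g : α → Bool} (hf : Computable f) (hg : Computable g) :
    Computable fun a => (f a == g a) := by
  have : Primrec₂ fun m n : Bool => (m == n) := Primrec.beq
  exact this.to_comp.comp hf hg

theorem cpair {f g : α → ℕ} (hf : Computable f) (hg : Computable g) :
    Computable fun a => Nat.pair (f a) (g a) := Primrec₂.natPair.to_comp.comp hf hg

theorem codeok_comp (L : Lang) {a b : α → ℕ → Bool} {h : α → List ℕ} {n : α → ℕ}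
    (ha : Computable₂ a) (hb : Computable₂ b) (hh : Computable h) (hn : Computable n) :
    Computable fun p => codeok L (a p) (b p) (h p) (n p) := by
  have hu := Computable.unpair.comp hn
  have hd : Computable fun p => Denumerable.ofNat (ℕ × List ℕ) (n p).unpair.2 :=
    (Computable.ofNat (ℕ × List ℕ)).comp (Computable.snd.comp hu)
  have hi := Computable.fst.comp hd
  have hx := Computable.snd.comp hd
  unfold codeok
  refine cor (cnot (cbeqN (Computable.fst.comp hu) (Computable.const 1))) (cor (cnot (L.sym_comp.comp hi))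
    (cor (cnot (cbeqN (Computable.list_length.comp hx) (L.ar_comp.comp hi))) (cor (cnot ?_) (cbeqB (ha.comp Computable.id hn) ?_))))
  · refine ball_comp (Computable.list_length.comp hx) ?_
    exact (ha.comp Computable.fst (cpair (Computable.const 0)
      (ap_comp (hx.comp Computable.fst) Computable.snd))).to₂
  · refine hb.comp Computable.id (cpair (Computable.const 1) ?_)
    exact Computable.encode.comp (hi.pair (map_ap_comp hh hx))

theorem goodb_comp (L : Lang) {a b : α → ℕ → Bool} {s : α → ℕ}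
    {h : α → List ℕ} (ha : Computable₂ a) (hb : Computable₂ b) (hs : Computable s)
    (hh : Computable h) : Computable fun p => goodb L (a p) (b p) (s p) (h p) := by
  unfold goodb
  refine cand (ball_comp hs ?_) (cand (ball_comp hs ?_) (ball_comp hs ?_))
  · exact (cor (cnot (ha.comp Computable.fst (cpair (Computable.const 0) Computable.snd)))
      (hb.comp Computable.fst (cpair (Computable.const 0)
        (ap_comp (hh.comp Computable.fst) Computable.snd)))).to₂
  · have p1 : Computable fun q : (α × ℕ) × ℕ => q.1.1 := Computable.fst.comp Computable.fst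
    have p2 : Computable fun q : (α × ℕ) × ℕ => q.1.2 := Computable.snd.comp Computable.fst
    have p3 : Computable fun q : (α × ℕ) × ℕ => q.2 := Computable.snd
    have := ball_comp (α := α × ℕ) (g := fun q => s q.1)
      (q := fun q y => !(a q.1 (Nat.pair 0 q.2)) || (!(a q.1 (Nat.pair 0 y)) ||
        (!(ap (h q.1) q.2 == ap (h q.1) y) || q.2 == y))) (hs.comp Computable.fst)
      (cor (cnot (ha.comp p1 (cpair (Computable.const 0) p2)))
        (cor (cnot (ha.comp p1 (cpair (Computable.const 0) p3)))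
          (cor (cnot (cbeqN (ap_comp (hh.comp p1) p2) (ap_comp (hh.comp p1) p3)))
            (cbeqN p2 p3)))).to₂
    exact this.to₂
  · have := codeok_comp (α := α × ℕ) L (a := fun q => a q.1) (b := fun q => b q.1)
      (h := fun q => h q.1) (n := fun q => q.2)
      (ha.comp (Computable.fst.comp Computable.fst) Computable.snd).to₂
      (hb.comp (Computable.fst.comp Computable.fst) Computable.snd).to₂
      (hh.comp Computable.fst) Computable.snd
    exact this.to₂

end combinators

/-! ### The structure that continues a finite part of `A` as a copy of `B` -/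

/-- the isomorphism -/
def pim (s : ℕ) (h : List ℕ) (x : ℕ) : ℕ := bif decide (x < s) then ap h x else x - s

/-- the structure which agrees with `A` below `s` and is a copy of `B` -/
def Zst (A B : Str) (s : ℕ) (h : List ℕ) : Str where
  U := {x | (x < s ∧ x ∈ A.U) ∨ (s ≤ x ∧ x - s ∈ B.U ∧ ∀ y < s, y ∈ A.U → ap h y ≠ x - s)}
  R := fun i xs => B.R i (xs.map (pim s h))

theorem pim_lt {s x : ℕ} (h : List ℕ) (hx : x < s) : pim s h x = ap h x := by simp [pim, hx]

theorem pim_ge {s x : ℕ} (h : List ℕ) (hx : s ≤ x) : pim s h x = x - s := by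
  simp [pim, Nat.not_lt.2 hx]

theorem Zst_iso {L : Lang} {A B : Str} {s : ℕ} {h : List ℕ} (hg : Good L A s B h) :
    IsIso L (Zst A B s h) B (pim s h) := by
  obtain ⟨g1, g2, g3⟩ := hg
  refine ⟨⟨?_, ?_, fun i xs _ => Iff.rfl⟩, ?_⟩
  · rintro x (⟨hx, hU⟩ | ⟨hx, hU, hn⟩)
    · rw [pim_lt h hx]; exact g1 x hx hU
    · rw [pim_ge h hx]; exact hU
  · rintro x (⟨hx, hU⟩ | ⟨hx, hU, hn⟩) y (⟨hy, hV⟩ | ⟨hy, hV, hm⟩) e
    · rw [pim_lt h hx, pim_lt h hy] at e; exact g2 x hx y hy hU hV e
    · rw [pim_lt h hx, pim_ge h hy] at e; exact absurd e (hm x hx hU)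
    · rw [pim_ge h hx, pim_lt h hy] at e; exact absurd e.symm (hn y hy hV)
    · rw [pim_ge h hx, pim_ge h hy] at e; omega
  · intro y hy
    by_cases hex : ∃ x < s, x ∈ A.U ∧ ap h x = y
    · obtain ⟨x, hx, hU, e⟩ := hex
      exact ⟨x, Or.inl ⟨hx, hU⟩, by rw [pim_lt h hx, e]⟩
    · refine ⟨s + y, Or.inr ⟨Nat.le_add_right _ _, by simpa using hy, fun z hz hzU => ?_⟩, ?_⟩
      · intro e
        exact hex ⟨z, hz, hzU, by rw [e]; omega⟩
      · rw [pim_ge h (Nat.le_add_right _ _)]; omega

theorem Zst_agree {L : Lang} {A B : Str} {s : ℕ} {h : List ℕ} (hg : Good L A s B h) (n : ℕ)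
    (hn : n < s) : n ∈ diagram L (Zst A B s h) ↔ n ∈ diagram L A := by
  have hU : ∀ x < s, x ∈ (Zst A B s h).U ↔ x ∈ A.U := by
    intro x hx
    constructor
    · rintro (⟨_, hU⟩ | ⟨hx', _⟩)
      · exact hU
      · omega
    · intro hU; exact Or.inl ⟨hx, hU⟩
  rw [← Nat.pair_unpair n] at hn ⊢
  by_cases h0 : n.unpair.1 = 0
  · rw [h0] at hn ⊢
    rw [mem_diag_zero, mem_diag_zero]
    exact hU _ (lt_of_le_of_lt (Nat.right_le_pair _ _) hn)
  by_cases h1 : n.unpair.1 = 1
  · rw [h1] at hn ⊢
    obtain ⟨i, xs, hix⟩ : ∃ i xs, Denumerable.ofNat (ℕ × List ℕ) n.unpair.2 = (i, xs) :=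
      ⟨_, _, rfl⟩
    have hne : n.unpair.2 = Encodable.encode (i, xs) := by
      rw [← hix, Denumerable.encode_ofNat]
    rw [hne] at hn ⊢
    rw [mem_diag_one, mem_diag_one]
    have hb := (code_bounds hn).2
    have htt : Tup L (Zst A B s h) i xs ↔ Tup L A i xs := by
      unfold Tup
      have : (∀ x ∈ xs, x ∈ (Zst A B s h).U) ↔ (∀ x ∈ xs, x ∈ A.U) :=
        forall₂_congr fun x hx => hU x (hb x hx)
      rw [this]
    rw [htt]
    refine and_congr_right fun ht => ?_
    have : xs.map (pim s h) = xs.map (ap h) :=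
      List.map_congr_left fun x hx => pim_lt h (hb x hx)
    have hR : (Zst A B s h).R i xs ↔ B.R i (xs.map (pim s h)) := Iff.rfl
    rw [hR, this, hg.2.2 i xs hn ht]
  · exact iff_of_false (not_mem_diag L _ _ _ h0 h1) (not_mem_diag L _ _ _ h0 h1)

/-- membership in the universe of `Zst` -/
def zU (a b : ℕ → Bool) (s : ℕ) (h : List ℕ) (x : ℕ) : Bool :=
  bif decide (x < s) then a (Nat.pair 0 x)
  else b (Nat.pair 0 (x - s)) && ball s (fun y => !(a (Nat.pair 0 y)) || !(ap h y == x - s))

/-- characteristic function of the diagram of `Zst` -/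
def zc (L : Lang) (a b : ℕ → Bool) (s : ℕ) (h : List ℕ) (n : ℕ) : Bool :=
  bif n.unpair.1 == 0 then zU a b s h n.unpair.2
  else bif n.unpair.1 == 1 then
    (L.sym (Denumerable.ofNat (ℕ × List ℕ) n.unpair.2).1 &&
    (((Denumerable.ofNat (ℕ × List ℕ) n.unpair.2).2.length ==
        L.ar (Denumerable.ofNat (ℕ × List ℕ) n.unpair.2).1) &&
    (ball (Denumerable.ofNat (ℕ × List ℕ) n.unpair.2).2.length
        (fun k => zU a b s h (ap (Denumerable.ofNat (ℕ × List ℕ) n.unpair.2).2 k)) &&
    b (Nat.pair 1 (Encodable.encode ((Denumerable.ofNat (ℕ × List ℕ) n.unpair.2).1,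
      (Denumerable.ofNat (ℕ × List ℕ) n.unpair.2).2.map (pim s h)))))))
  else false

theorem zU_iff {L : Lang} {A B : Str} {a b : ℕ → Bool}
    (ha : ∀ n, a n = true ↔ n ∈ diagram L A) (hb : ∀ n, b n = true ↔ n ∈ diagram L B)
    (s : ℕ) (h : List ℕ) (x : ℕ) : zU a b s h x = true ↔ x ∈ (Zst A B s h).U := by
  have ha0 : ∀ x, a (Nat.pair 0 x) = true ↔ x ∈ A.U := fun x => by rw [ha, mem_diag_zero]
  have hb0 : ∀ x, b (Nat.pair 0 x) = true ↔ x ∈ B.U := fun x => by rw [hb, mem_diag_zero]
  have hZ : x ∈ (Zst A B s h).U ↔ ((x < s ∧ x ∈ A.U) ∨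
    (s ≤ x ∧ x - s ∈ B.U ∧ ∀ y < s, y ∈ A.U → ap h y ≠ x - s)) := Iff.rfl
  rw [hZ]
  unfold zU
  by_cases hx : x < s
  · simp only [hx, decide_true, cond_true, ha0]
    have : ¬ s ≤ x := Nat.not_le.2 hx
    tauto
  · have hx' : s ≤ x := Nat.not_lt.1 hx
    simp only [hx, decide_false, cond_false, Bool.and_eq_true, hb0, ball_iff, Bool.or_eq_true,
      Bool.not_eq_true', beq_eq_false_iff_ne]
    have key : (∀ k < s, a (Nat.pair 0 k) = false ∨ ap h k ≠ x - s) ↔
        (∀ y < s, y ∈ A.U → ap h y ≠ x - s) := by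
      refine forall₂_congr fun y _ => ?_
      rw [← Bool.not_eq_true, ha0]; tauto
    rw [key]
    tauto

theorem ball_mem' (a : ℕ → Bool) (xs : List ℕ) :
    ball xs.length (fun k => a (ap xs k)) = true ↔ ∀ x ∈ xs, a x = true := by
  rw [ball_iff]
  constructor
  · intro h x hx
    obtain ⟨k, hk, rfl⟩ := List.mem_iff_getElem.1 hx
    have := h k hk
    simpa [ap, List.getD, hk] using this
  · intro h k hk
    have : ap xs k = xs[k] := by simp [ap, List.getD, hk]
    rw [this]
    exact h _ (List.getElem_mem hk)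

theorem zc_iff {L : Lang} {A B : Str} {a b : ℕ → Bool} {s : ℕ} {h : List ℕ}
    (ha : ∀ n, a n = true ↔ n ∈ diagram L A) (hb : ∀ n, b n = true ↔ n ∈ diagram L B)
    (hg : Good L A s B h) (n : ℕ) :
    zc L a b s h n = true ↔ n ∈ diagram L (Zst A B s h) := by
  have hzU := zU_iff ha hb s h
  obtain ⟨p, m, rfl⟩ : ∃ p m, n = Nat.pair p m := ⟨n.unpair.1, n.unpair.2, by simp⟩
  unfold zc
  rw [Nat.unpair_pair]
  by_cases h0 : p = 0
  · subst h0
    simp only [beq_self_eq_true, cond_true]
    rw [hzU, mem_diag_zero]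
  by_cases h1 : p = 1
  · subst h1
    obtain ⟨i, xs, hix⟩ : ∃ i xs, Denumerable.ofNat (ℕ × List ℕ) m = (i, xs) := ⟨_, _, rfl⟩
    have hne : m = Encodable.encode (i, xs) := by rw [← hix, Denumerable.encode_ofNat]
    subst hne
    have e10 : ((1 : ℕ) == 0) = false := rfl
    rw [mem_diag_one, Denumerable.ofNat_encode]
    simp only [e10, cond_false, beq_self_eq_true, cond_true, Bool.and_eq_true, beq_iff_eq]
    rw [ball_mem']
    have e1 : (∀ x ∈ xs, zU a b s h x = true) ↔ ∀ x ∈ xs, x ∈ (Zst A B s h).U :=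
      forall₂_congr fun x _ => hzU x
    rw [e1, hb, mem_diag_one]
    constructor
    · rintro ⟨q1, q2, q3, q4, q5⟩
      exact ⟨⟨q1, q2, q3⟩, q5⟩
    · rintro ⟨⟨q1, q2, q3⟩, q5⟩
      refine ⟨q1, q2, q3, ⟨q1, by simpa using q2, ?_⟩, q5⟩
      intro y hy
      obtain ⟨x, hx, rfl⟩ := List.mem_map.1 hy
      exact (Zst_iso hg).1.1 x (q3 x hx)
  · have e0 : (p == 0) = false := by simpa using h0
    have e1 : (p == 1) = false := by simpa using h1
    simp only [e0, e1, cond_false]
    exact iff_of_false (by simp) (not_mem_diag L _ _ _ h0 h1)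


section

variable {α : Type} [Primcodable α]

theorem clt {f g : α → ℕ} (hf : Computable f) (hg : Computable g) :
    Computable fun a => decide (f a < g a) := by
  have : Primrec₂ fun m n : ℕ => decide (m < n) := Primrec.nat_lt.decide
  exact this.to_comp.comp hf hg

theorem csub {f g : α → ℕ} (hf : Computable f) (hg : Computable g) :
    Computable fun a => f a - g a := Primrec.nat_sub.to_comp.comp hf hg

theorem pim_prim : Primrec fun p : (ℕ × List ℕ) × ℕ => pim p.1.1 p.1.2 p.2 := by
  unfold pim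
  refine Primrec.cond ?_ ?_ ?_
  · exact (Primrec.nat_lt.comp Primrec.snd (Primrec.fst.comp Primrec.fst)).decide
  · exact ap_prim.comp (Primrec.snd.comp Primrec.fst) Primrec.snd
  · exact Primrec.nat_sub.comp Primrec.snd (Primrec.fst.comp Primrec.fst)

theorem map_pim_comp {s : α → ℕ} {h g : α → List ℕ} (hs : Computable s) (hh : Computable h)
    (hg : Computable g) : Computable fun a => (g a).map (pim (s a) (h a)) := by
  have h1 : Primrec fun p : (ℕ × List ℕ) × List ℕ => p.2.map (pim p.1.1 p.1.2) :=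
    Primrec.list_map Primrec.snd
      (pim_prim.comp ((Primrec.fst.comp Primrec.fst).pair Primrec.snd)).to₂
  exact h1.to_comp.comp ((hs.pair hh).pair hg)

theorem zU_comp {a b : α → ℕ → Bool} {s : α → ℕ} {h : α → List ℕ} {x : α → ℕ}
    (ha : Computable₂ a) (hb : Computable₂ b) (hs : Computable s)
    (hh : Computable h) (hx : Computable x) :
    Computable fun p => zU (a p) (b p) (s p) (h p) (x p) := by
  unfold zU
  refine Computable.cond (clt hx hs) (ha.comp Computable.id (cpair (Computable.const 0) hx))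
    (cand (hb.comp Computable.id (cpair (Computable.const 0) (csub hx hs))) (ball_comp hs ?_))
  exact (cor (cnot (ha.comp Computable.fst (cpair (Computable.const 0) Computable.snd)))
    (cnot (cbeqN (ap_comp (hh.comp Computable.fst) Computable.snd)
      (csub (hx.comp Computable.fst) (hs.comp Computable.fst))))).to₂

theorem zc_comp (L : Lang) {a b : α → ℕ → Bool} {s : α → ℕ} {h : α → List ℕ} {n : α → ℕ}
    (ha : Computable₂ a) (hb : Computable₂ b) (hs : Computable s)
    (hh : Computable h) (hn : Computable n) :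
    Computable fun p => zc L (a p) (b p) (s p) (h p) (n p) := by
  have hu := Computable.unpair.comp hn
  have hd : Computable fun p => Denumerable.ofNat (ℕ × List ℕ) (n p).unpair.2 :=
    (Computable.ofNat (ℕ × List ℕ)).comp (Computable.snd.comp hu)
  have hi := Computable.fst.comp hd
  have hx := Computable.snd.comp hd
  unfold zc
  refine Computable.cond (cbeqN (Computable.fst.comp hu) (Computable.const 0))
    (zU_comp ha hb hs hh (Computable.snd.comp hu)) (Computable.cond
      (cbeqN (Computable.fst.comp hu) (Computable.const 1)) ?_ (Computable.const false))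
  refine cand (L.sym_comp.comp hi) (cand (cbeqN (Computable.list_length.comp hx)
    (L.ar_comp.comp hi)) (cand (ball_comp (Computable.list_length.comp hx) ?_) ?_))
  · have := zU_comp (α := α × ℕ) (a := fun q => a q.1) (b := fun q => b q.1)
      (s := fun q => s q.1) (h := fun q => h q.1)
      (x := fun q => ap (Denumerable.ofNat (ℕ × List ℕ) (n q.1).unpair.2).2 q.2)
      (ha.comp (Computable.fst.comp Computable.fst) Computable.snd).to₂
      (hb.comp (Computable.fst.comp Computable.fst) Computable.snd).to₂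
      (hs.comp Computable.fst) (hh.comp Computable.fst)
      (ap_comp (hx.comp Computable.fst) Computable.snd)
    exact this.to₂
  · refine hb.comp Computable.id (cpair (Computable.const 1) ?_)
    exact Computable.encode.comp (hi.pair (map_pim_comp hs hh hx))

/-! ### The first stage at which an event happens -/

/-- the least `s < n` with `ev s`, if any -/
def fe (ev : ℕ → Bool) (n : ℕ) : Option ℕ :=
  Nat.rec (motive := fun _ => Option ℕ) none
    (fun k acc => Option.casesOn acc (bif ev k then some k else none) some) n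

theorem fe_comp {ev : α → ℕ → Bool} {n : α → ℕ} (hev : Computable₂ ev) (hn : Computable n) :
    Computable fun a => fe (ev a) (n a) := by
  have h3 : Computable₂ fun (a : α) (p : ℕ × Option ℕ) =>
      (Option.casesOn p.2 (bif ev a p.1 then some p.1 else none) some : Option ℕ) := by
    refine Computable.option_casesOn (α := α × ℕ × Option ℕ) (o := fun q => q.2.2)
      (f := fun q => bif ev q.1 q.2.1 then some q.2.1 else none) (g := fun _ s => some s)
      (Computable.snd.comp Computable.snd) ?_ ?_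
    · exact Computable.cond (hev.comp Computable.fst (Computable.fst.comp Computable.snd))
        (Computable.option_some.comp (Computable.fst.comp Computable.snd)) (Computable.const none)
    · exact (Computable.option_some.comp Computable.snd).to₂
  exact (Computable.nat_rec hn (Computable.const none) h3).of_eq fun a => rfl

theorem fe_none {ev : ℕ → Bool} (n : ℕ) (h : ∀ s < n, ev s = false) : fe ev n = none := by
  induction n with
  | zero => rfl
  | succ n ih =>
    have h1 : fe ev (n + 1) = Option.casesOn (fe ev n) (bif ev n then some n else none) some := rfl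
    rw [h1, ih (fun s hs => h s (Nat.lt_succ_of_lt hs))]
    simp [h n (Nat.lt_succ_self n)]

theorem fe_some {ev : ℕ → Bool} {s : ℕ} (h : ∀ t < s, ev t = false) (hs : ev s = true) (n : ℕ)
    (hn : s < n) : fe ev n = some s := by
  induction n with
  | zero => omega
  | succ n ih =>
    have h1 : fe ev (n + 1) = Option.casesOn (fe ev n) (bif ev n then some n else none) some := rfl
    rcases Nat.lt_succ_iff_lt_or_eq.1 hn with h2 | h2
    · rw [h1, ih h2]
    · subst h2
      rw [h1, fe_none s h]
      simp [hs]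

end

/-- The switching lemma. -/
theorem switch (L : Lang) {P : Type} [Primcodable P] (A : P → Str) (a : P → ℕ → Bool)
    (ha : Computable₂ a) (hA : ∀ p n, a p n = true ↔ n ∈ diagram L (A p))
    (B : Str) (b : ℕ → Bool) (hb : Computable b) (hB : ∀ n, b n = true ↔ n ∈ diagram L B)
    (hage : ∀ p, AgeLe L (A p) B) (ev : P → ℕ → Bool) (hev : Computable₂ ev) :
    ∃ (V : P → Str) (v : P → ℕ → Bool), Computable₂ v ∧
      (∀ p n, v p n = true ↔ n ∈ diagram L (V p)) ∧
      (∀ p, (∀ s, ev p s = false) → V p = A p) ∧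
      (∀ p s, ev p s = true → ∃ h, IsIso L (V p) B h) := by
  classical
  -- the search for the finite map
  have hb2 : Computable₂ fun (_ : P × ℕ) (n : ℕ) => b n := (hb.comp Computable.snd).to₂
  have ha2 : Computable₂ fun (q : P × ℕ) (n : ℕ) => a q.1 n :=
    (ha.comp (Computable.fst.comp Computable.fst) Computable.snd).to₂
  obtain ⟨F, hF, hF2⟩ := search (α := P × ℕ)
    (q := fun q m => goodb L (a q.1) b q.2 (Denumerable.ofNat (List ℕ) m)) (by
      have := goodb_comp (α := (P × ℕ) × ℕ) L (a := fun q => a q.1.1) (b := fun _ => b)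
        (s := fun q => q.1.2) (h := fun q => Denumerable.ofNat (List ℕ) q.2)
        (ha.comp (Computable.fst.comp (Computable.fst.comp Computable.fst)) Computable.snd).to₂
        (hb.comp Computable.snd).to₂ (Computable.snd.comp Computable.fst)
        ((Computable.ofNat (List ℕ)).comp Computable.snd)
      exact this.to₂) (by
      rintro ⟨p, s⟩
      obtain ⟨l, hl⟩ := good_of_age (hage p) s
      exact ⟨Encodable.encode l, by
        simp only [Denumerable.ofNat_encode]
        exact (goodb_iff (hA p) hB s l).2 hl⟩)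
  let H : P → ℕ → List ℕ := fun p s => Denumerable.ofNat (List ℕ) (F (p, s))
  have hH : ∀ p s, Good L (A p) s B (H p s) := fun p s =>
    (goodb_iff (hA p) hB s _).1 (hF2 (p, s))
  let v : P → ℕ → Bool := fun p n =>
    Option.casesOn (fe (ev p) (n + 1)) (a p n) (fun s => zc L (a p) b s (H p s) n)
  have hv : Computable₂ v := by
    refine Computable.option_casesOn (α := P × ℕ) (o := fun q => fe (ev q.1) (q.2 + 1))
      (f := fun q => a q.1 q.2) (g := fun q s => zc L (a q.1) b s (H q.1 s) q.2) ?_ ?_ ?_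
    · exact fe_comp (α := P × ℕ) (ev := fun q => ev q.1) (n := fun q => q.2 + 1)
        (hev.comp (Computable.fst.comp Computable.fst) Computable.snd).to₂
        (Computable.succ.comp Computable.snd)
    · exact ha
    · have := zc_comp (α := (P × ℕ) × ℕ) L (a := fun q => a q.1.1) (b := fun _ => b)
        (s := fun q => q.2) (h := fun q => H q.1.1 q.2) (n := fun q => q.1.2)
        (ha.comp (Computable.fst.comp (Computable.fst.comp Computable.fst)) Computable.snd).to₂
        (hb.comp Computable.snd).to₂ Computable.snd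
        ((Computable.ofNat (List ℕ)).comp (hF.comp
          ((Computable.fst.comp Computable.fst).pair Computable.snd)))
        (Computable.snd.comp Computable.fst)
      exact this.to₂
  let V : P → Str := fun p =>
    if h : ∃ s, ev p s = true then Zst (A p) B (Nat.find h) (H p (Nat.find h)) else A p
  refine ⟨V, v, hv, fun p n => ?_, fun p hp => ?_, fun p s hs => ?_⟩
  · by_cases h : ∃ s, ev p s = true
    · have hV : V p = Zst (A p) B (Nat.find h) (H p (Nat.find h)) := dif_pos h
      have hmin : ∀ t < Nat.find h, ev p t = false := fun t ht => by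
        simpa using Nat.find_min h ht
      rw [hV]
      by_cases hn : Nat.find h < n + 1
      · have : v p n = zc L (a p) b (Nat.find h) (H p (Nat.find h)) n := by
          simp only [v, fe_some hmin (Nat.find_spec h) (n + 1) hn]
        rw [this]
        exact zc_iff (hA p) hB (hH p _) n
      · have : v p n = a p n := by
          have : fe (ev p) (n + 1) = none :=
            fe_none (n + 1) (fun s hs => hmin s (by omega))
          simp only [v, this]
        rw [this, hA, Zst_agree (hH p _) n (by omega)]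
    · have hV : V p = A p := dif_neg h
      have : v p n = a p n := by
        have : fe (ev p) (n + 1) = none :=
          fe_none (n + 1) (fun s _ => by
            by_contra hc
            exact h ⟨s, by simpa using hc⟩)
        simp only [v, this]
      rw [hV, this, hA]
  · have : ¬ ∃ s, ev p s = true := by
      rintro ⟨s, hs⟩
      rw [hp s] at hs; exact absurd hs (by decide)
    exact dif_neg this
  · have h : ∃ s, ev p s = true := ⟨s, hs⟩
    have hV : V p = Zst (A p) B (Nat.find h) (H p (Nat.find h)) := dif_pos h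
    rw [hV]
    exact ⟨_, Zst_iso (hH p _)⟩


/-! ### Ages and finite realisations -/

theorem pair_mono {a b c d : ℕ} (h : a ≤ c) (h' : b ≤ d) : Nat.pair a b ≤ Nat.pair c d := by
  rcases Nat.lt_or_eq_of_le h with h | rfl
  · rcases Nat.lt_or_eq_of_le h' with h' | rfl
    · exact ((Nat.pair_lt_pair_left b h).trans (Nat.pair_lt_pair_right c h')).le
    · exact (Nat.pair_lt_pair_left b h).le
  · rcases Nat.lt_or_eq_of_le h' with h' | rfl
    · exact (Nat.pair_lt_pair_right a h').le
    · exact le_refl _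

theorem list_bound (M n : ℕ) : ∃ K, ∀ xs : List ℕ, xs.length = n → (∀ x ∈ xs, x ≤ M) →
    Encodable.encode xs ≤ K := by
  induction n with
  | zero =>
    refine ⟨0, fun xs h _ => ?_⟩
    rw [List.length_eq_zero_iff.1 h]; exact le_of_eq Encodable.encode_list_nil
  | succ n ih =>
    obtain ⟨K, hK⟩ := ih
    refine ⟨Nat.succ (Nat.pair M K), fun xs h hx => ?_⟩
    cases xs with
    | nil => simp at h
    | cons x ys =>
      rw [Encodable.encode_list_cons]
      refine Nat.succ_le_succ (pair_mono ?_ ?_)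
      · exact hx x (by simp)
      · exact hK ys (by simpa using h) (fun y hy => hx y (by simp [hy]))

theorem code_bound (L : Lang) (M N : ℕ) : ∃ s, M < s ∧ ∀ i < N, ∀ xs : List ℕ,
    xs.length = L.ar i → (∀ x ∈ xs, x ≤ M) → Nat.pair 1 (Encodable.encode (i, xs)) < s := by
  induction N with
  | zero => exact ⟨M + 1, Nat.lt_succ_self M, fun i hi => absurd hi (Nat.not_lt_zero i)⟩
  | succ N ih =>
    obtain ⟨s, hs, h⟩ := ih
    obtain ⟨K, hK⟩ := list_bound M (L.ar N)
    refine ⟨max s (Nat.pair 1 (Nat.pair N K) + 1), lt_max_of_lt_left hs, fun i hi xs hl hx => ?_⟩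
    rcases Nat.lt_succ_iff_lt_or_eq.1 hi with h1 | rfl
    · exact lt_max_of_lt_left (h i h1 xs hl hx)
    · refine lt_max_of_lt_right (Nat.lt_succ_of_le (pair_mono le_rfl ?_))
      rw [Encodable.encode_prod_val]
      exact pair_mono le_rfl (hK xs hl hx)

theorem age_of_good {L : Lang} {A B : Str} (h : ∀ s, ∃ l, Good L A s B l) : AgeLe L A B := by
  intro S N hS
  obtain ⟨s, hs, hs2⟩ := code_bound L (S.sup id) N
  obtain ⟨l, g1, g2, g3⟩ := h s
  have hle : ∀ x ∈ S, x ≤ S.sup id := fun x hx => Finset.le_sup (f := id) hx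
  refine ⟨ap l, fun x hx => g1 x (lt_of_le_of_lt (hle x hx) hs) (hS x hx),
    fun x hx y hy e => g2 x (lt_of_le_of_lt (hle x hx) hs) y (lt_of_le_of_lt (hle y hy) hs)
      (hS x hx) (hS y hy) e, fun i hi xs ht hxs => g3 i xs ?_ ht⟩
  exact hs2 i hi xs ht.2.1 fun x hx => hle x (hxs x hx)

/-! ### Computability of diagrams given by indices -/

theorem index_comp (L : Lang) {P : Type} [Primcodable P] {e : P → ℕ} (he : Computable e)
    {A : P → Str} (hA : ∀ p, IsIndex L (e p) (A p)) :
    ∃ a : P → ℕ → Bool, Computable₂ a ∧ ∀ p n, a p n = true ↔ n ∈ diagram L (A p) := by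
  classical
  have h1 : Partrec fun q : P × ℕ => eval (Denumerable.ofNat Code (e q.1)) q.2 :=
    eval_part.comp ((Computable.ofNat Code).comp (he.comp Computable.fst)) Computable.snd
  have h2 : Computable fun q : P × ℕ => (if q.2 ∈ diagram L (A q.1) then 1 else 0 : ℕ) :=
    h1.of_eq_tot fun q => by rw [hA q.1 q.2]; exact Part.mem_some _
  refine ⟨fun p n => ((if n ∈ diagram L (A p) then 1 else 0 : ℕ) == 1), ?_, fun p n => ?_⟩
  · exact (cbeqN h2 (Computable.const 1)).to₂
  · by_cases h : n ∈ diagram L (A p) <;> simp [h]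

theorem re_of_search {α : Type} [Primcodable α] {q : α → ℕ → Bool} (hq : Computable₂ q) :
    REPred fun a => ∃ n, q a n = true := by
  have h1 : Partrec fun a => Nat.rfind (fun n => Part.some (q a n)) := Partrec.rfind hq.partrec₂
  refine (Partrec.dom_re h1).of_eq fun a => Iff.trans Nat.rfind_dom ?_
  constructor
  · rintro ⟨n, hn, _⟩
    exact ⟨n, by simpa using hn⟩
  · rintro ⟨n, hn⟩
    exact ⟨n, by simpa using hn, fun _ => trivial⟩

theorem re_comp {α β : Type} [Primcodable α] [Primcodable β] {p : β → Prop} (hp : REPred p)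
    {f : α → β} (hf : Computable f) : REPred fun a => p (f a) := Partrec.comp hp hf

/-! ### The equivalence relation -/

/-- the halting set -/
def Hal (k : ℕ) : Prop := (eval (Denumerable.ofNat Code k) 0).Dom

/-- its computable approximation -/
def Hs (k s : ℕ) : Bool := (evaln s (Denumerable.ofNat Code k) 0).isSome

theorem Hs_mono {k s t : ℕ} (h : s ≤ t) (hs : Hs k s = true) : Hs k t = true := by
  obtain ⟨x, hx⟩ := Option.isSome_iff_exists.1 hs
  exact Option.isSome_iff_exists.2 ⟨x, evaln_mono h hx⟩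

theorem Hal_iff (k : ℕ) : Hal k ↔ ∃ s, Hs k s = true := by
  unfold Hal Hs
  rw [Part.dom_iff_mem]
  constructor
  · rintro ⟨y, hy⟩
    obtain ⟨s, hs⟩ := evaln_complete.1 hy
    exact ⟨s, Option.isSome_iff_exists.2 ⟨y, hs⟩⟩
  · rintro ⟨s, hs⟩
    obtain ⟨x, hx⟩ := Option.isSome_iff_exists.1 hs
    exact ⟨x, evaln_complete.2 ⟨s, hx⟩⟩

theorem Hs_comp {α : Type} [Primcodable α] {k s : α → ℕ} (hk : Computable k)
    (hs : Computable s) : Computable fun a => Hs (k a) (s a) := by
  have h1 : Computable fun a => evaln (s a) (Denumerable.ofNat Code (k a)) 0 :=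
    primrec_evaln.to_comp.comp ((hs.pair ((Computable.ofNat Code).comp hk)).pair
      (Computable.const 0))
  exact (Primrec.option_isSome.to_comp).comp h1

theorem not_re_compl_Hal : ¬ REPred fun k => ¬ Hal k := by
  intro h
  refine ComputablePred.halting_problem_not_re 0 ((re_comp h Computable.encode).of_eq fun c => ?_)
  unfold Hal
  rw [Denumerable.ofNat_encode]

/-- the join of the halting set and its complement -/
def SetA (n : ℕ) : Prop :=
  (n.unpair.1 = 0 ∧ Hal n.unpair.2) ∨ (n.unpair.1 ≠ 0 ∧ ¬ Hal n.unpair.2)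

theorem SetA_zero (k : ℕ) : SetA (Nat.pair 0 k) ↔ Hal k := by simp [SetA]

theorem SetA_one (k : ℕ) : SetA (Nat.pair 1 k) ↔ ¬ Hal k := by simp [SetA]

theorem SetA_not_re : ¬ REPred SetA := fun h =>
  not_re_compl_Hal ((re_comp h (cpair (Computable.const 1) Computable.id)).of_eq
    fun k => SetA_one k)

theorem SetA_not_core : ¬ REPred fun n => ¬ SetA n := fun h =>
  not_re_compl_Hal ((re_comp h (cpair (Computable.const 0) Computable.id)).of_eq
    fun k => not_congr (SetA_zero k))

/-- the two-class equivalence relation -/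
def Rel (x y : ℕ) : Prop := SetA x ↔ SetA y

/-- the limit approximation to `SetA` -/
def appr (x s : ℕ) : Bool := bif x.unpair.1 == 0 then Hs x.unpair.2 s else !(Hs x.unpair.2 s)

theorem appr_lim (x : ℕ) : ∃ m, ∀ s, m ≤ s → (appr x s = true ↔ SetA x) := by
  unfold appr SetA
  by_cases hH : Hal x.unpair.2
  · obtain ⟨m, hm⟩ := (Hal_iff _).1 hH
    refine ⟨m, fun s hs => ?_⟩
    have := Hs_mono hs hm
    by_cases h0 : x.unpair.1 = 0 <;> simp [h0, this, hH]
  · refine ⟨0, fun s _ => ?_⟩
    have : Hs x.unpair.2 s = false := by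
      by_contra hc
      exact hH ((Hal_iff _).2 ⟨s, by simpa using hc⟩)
    by_cases h0 : x.unpair.1 = 0 <;> simp [h0, this, hH]

theorem appr_comp {α : Type} [Primcodable α] {x s : α → ℕ} (hx : Computable x)
    (hs : Computable s) : Computable fun a => appr (x a) (s a) := by
  have hu := Computable.unpair.comp hx
  have h1 := Hs_comp (Computable.snd.comp hu) hs
  exact Computable.cond (cbeqN (Computable.fst.comp hu) (Computable.const 0)) h1 (cnot h1)

theorem Rel_sigma11 : IsSigma11 Rel := by
  refine ⟨fun q => (q.2.2.length == 0) || (decide (q.2.2.length < ap q.2.2 0) ||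
    (appr q.1 q.2.2.length == appr q.2.1 q.2.2.length)), ?_, fun x y => ?_⟩
  · have hx : Computable fun q : ℕ × ℕ × List ℕ => q.1 := Computable.fst
    have hy : Computable fun q : ℕ × ℕ × List ℕ => q.2.1 := Computable.fst.comp Computable.snd
    have hl : Computable fun q : ℕ × ℕ × List ℕ => q.2.2 := Computable.snd.comp Computable.snd
    have hn := Computable.list_length.comp hl
    exact cor (cbeqN hn (Computable.const 0)) (cor (clt hn (ap_comp hl (Computable.const 0)))
      (cbeqB (appr_comp hx hn) (appr_comp hy hn)))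
  · obtain ⟨m1, h1⟩ := appr_lim x
    obtain ⟨m2, h2⟩ := appr_lim y
    constructor
    · intro hE
      refine ⟨fun _ => max m1 m2, fun n => ?_⟩
      rcases Nat.eq_zero_or_pos n with rfl | hn
      · simp
      · have hap : ap ((List.range n).map (fun _ => max m1 m2)) 0 = max m1 m2 := ap_map_range _ hn
        simp only [List.length_map, List.length_range, hap, Bool.or_eq_true, decide_eq_true_eq]
        by_cases hc : n < max m1 m2
        · right; left; exact hc
        · right; right
          have hc' := Nat.not_lt.1 hc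
          have e1 := h1 n ((le_max_left _ _).trans hc')
          have e2 := h2 n ((le_max_right _ _).trans hc')
          rw [beq_iff_eq, Bool.eq_iff_iff, e1, e2]
          exact hE
    · rintro ⟨f, hf⟩
      have hn := hf (max (f 0) (max m1 m2) + 1)
      have hpos : 0 < max (f 0) (max m1 m2) + 1 := Nat.succ_pos _
      have hap : ap ((List.range (max (f 0) (max m1 m2) + 1)).map f) 0 = f 0 :=
        ap_map_range _ hpos
      simp only [List.length_map, List.length_range, hap, Bool.or_eq_true,
        decide_eq_true_eq] at hn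
      have g1 : f 0 ≤ max (f 0) (max m1 m2) := le_max_left _ _
      have g2 : max m1 m2 ≤ max (f 0) (max m1 m2) := le_max_right _ _
      rcases hn with hn | hn | hn
      · simp at hn
      · omega
      · have e1 := h1 (max (f 0) (max m1 m2) + 1)
          ((le_max_left m1 m2).trans (g2.trans (Nat.le_succ _)))
        have e2 := h2 (max (f 0) (max m1 m2) + 1)
          ((le_max_right m1 m2).trans (g2.trans (Nat.le_succ _)))
        rw [beq_iff_eq, Bool.eq_iff_iff, e1, e2] at hn
        exact hn


/-! ### The main argument -/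

theorem evaln_det {c : Code} {k l n x y : ℕ} (hx : x ∈ evaln k c n) (hy : y ∈ evaln l c n) :
    x = y := Part.mem_unique (evaln_sound hx) (evaln_sound hy)

/-- the first event -/
def ev1 (cf : Code) (c : Code) (s : ℕ) : Bool :=
  Option.casesOn (evaln s cf (Encodable.encode c)) false
    (fun y => !(y.unpair.1 == 0) || Hs y.unpair.2 s)

/-- the second event -/
def ev2 (cf : Code) (c : Code) (s : ℕ) : Bool :=
  Option.casesOn (evaln s cf (Encodable.encode c)) false
    (fun y => !(y.unpair.1 == 0) && Hs y.unpair.2 s)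

theorem ev_comp (cf : Code) : Computable₂ (ev1 cf) ∧ Computable₂ (ev2 cf) := by
  have h1 : Computable fun q : Code × ℕ => evaln q.2 cf (Encodable.encode q.1) :=
    primrec_evaln.to_comp.comp ((Computable.snd.pair (Computable.const cf)).pair
      (Computable.encode.comp Computable.fst))
  have hu : Computable fun r : (Code × ℕ) × ℕ => r.2.unpair :=
    Computable.unpair.comp Computable.snd
  have ha := cnot (cbeqN (Computable.fst.comp hu) (Computable.const 0))
  have hb := Hs_comp (Computable.snd.comp hu)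
    ((Computable.snd.comp Computable.fst : Computable fun r : (Code × ℕ) × ℕ => r.1.2))
  constructor
  · exact Computable.option_casesOn (o := fun q : Code × ℕ => evaln q.2 cf (Encodable.encode q.1))
      (f := fun _ => false) (g := fun q y => !(y.unpair.1 == 0) || Hs y.unpair.2 q.2)
      h1 (Computable.const false) (cor ha hb).to₂
  · exact Computable.option_casesOn (o := fun q : Code × ℕ => evaln q.2 cf (Encodable.encode q.1))
      (f := fun _ => false) (g := fun q y => !(y.unpair.1 == 0) && Hs y.unpair.2 q.2)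
      h1 (Computable.const false) (cand ha hb).to₂

theorem diagonal (L : Lang) (K : Str → Prop)
    (hK : ∀ A B h, K A → IsIso L A B h → K B) (f : ℕ →. ℕ) (hf : Partrec f)
    (hfI : ∀ e ∈ IndexSet L K, ∃ y ∈ f e, y ∈ (Set.univ : Set ℕ))
    (hfE : ∀ e ∈ IndexSet L K, ∀ e' ∈ IndexSet L K, ∀ y ∈ f e, ∀ y' ∈ f e',
      (IdxBiEmb L e e' ↔ Rel y y'))
    (B C : Str) (hB : K B) (hC : K C) (b c : ℕ) (hb : IsIndex L b B) (hc : IsIndex L c C)
    (hBC : ¬ BiEmb L B C) (h1 : AgeLe L B C) (h2 : AgeLe L C B) (yb : ℕ) (hyb : yb ∈ f b)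
    (hA : SetA yb) : False := by
  classical
  obtain ⟨cf, hcf⟩ := exists_code.1 (Partrec.nat_iff.1 hf)
  obtain ⟨β, hβ, hβ2⟩ := index_comp L (P := Unit) (Computable.const b) (A := fun _ => B)
    (fun _ => hb)
  obtain ⟨γ, hγ, hγ2⟩ := index_comp L (P := Unit) (Computable.const c) (A := fun _ => C)
    (fun _ => hc)
  have hβ' : Computable (β ()) := hβ.comp (Computable.const ()) Computable.id
  have hγ' : Computable (γ ()) := hγ.comp (Computable.const ()) Computable.id
  obtain ⟨V1, v1, hv1, hV1, n1, s1⟩ := switch L (P := Code) (fun _ => B) (fun _ => β ())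
    (hβ'.comp Computable.snd).to₂ (fun _ n => hβ2 () n) C (γ ()) hγ' (fun n => hγ2 () n)
    (fun _ => h1) (ev1 cf) (ev_comp cf).1
  have hidB : IsIso L B B id := id_iso_of_diagram L rfl
  have hage : ∀ p, AgeLe L (V1 p) B := by
    intro p
    by_cases hex : ∃ s, ev1 cf p s = true
    · obtain ⟨s, hs⟩ := hex
      obtain ⟨h, hh⟩ := s1 p s hs
      exact AgeLe.emb_left hh.1 h2
    · rw [n1 p (fun s => by
        by_contra hcon
        exact hex ⟨s, by simpa using hcon⟩)]
      exact ageLe_of_emb hidB.1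
  obtain ⟨V2, v2, hv2, hV2, n2, s2⟩ := switch L (P := Code) V1 v1 hv1 hV1 B (β ()) hβ'
    (fun n => hβ2 () n) hage (ev2 cf) (ev_comp cf).2
  -- the recursion theorem
  have hp : Partrec₂ fun (d : Code) (n : ℕ) => Part.some (bif v2 d n then 1 else 0 : ℕ) := by
    have : Computable fun q : Code × ℕ => (bif v2 q.1 q.2 then 1 else 0 : ℕ) :=
      Computable.cond hv2 (Computable.const 1) (Computable.const 0)
    exact this.partrec.to₂
  obtain ⟨d, hd⟩ := fixed_point₂ hp
  have hidx : IsIndex L (Encodable.encode d) (V2 d) := by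
    intro n
    rw [Denumerable.ofNat_encode, hd]
    by_cases hn : n ∈ diagram L (V2 d)
    · simp [hn, (hV2 d n).2 hn]
    · have : v2 d n = false := by
        by_contra hcon
        exact hn ((hV2 d n).1 (by simpa using hcon))
      simp [hn, this]
  -- the three cases
  have caseB2 : ∀ s, ev2 cf d s = true → ∃ h, IsIso L (V2 d) B h := fun s hs => s2 d s hs
  have caseC : ∀ s, ev1 cf d s = true → (∀ t, ev2 cf d t = false) →
      ∃ h, IsIso L (V2 d) C h := by
    intro s hs ht
    rw [n2 d ht]
    exact s1 d s hs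
  have caseB1 : (∀ s, ev1 cf d s = false) → (∀ t, ev2 cf d t = false) →
      ∃ h, IsIso L (V2 d) B h := by
    intro hs ht
    rw [n2 d ht, n1 d hs]
    exact ⟨id, hidB⟩
  have hKV : K (V2 d) := by
    by_cases e2 : ∃ s, ev2 cf d s = true
    · obtain ⟨s, hs⟩ := e2
      obtain ⟨h, hh⟩ := caseB2 s hs
      obtain ⟨k, hk⟩ := iso_symm L hh
      exact hK _ _ k hB hk
    · have e2' : ∀ t, ev2 cf d t = false := fun t => by
        by_contra hcon
        exact e2 ⟨t, by simpa using hcon⟩
      by_cases e1 : ∃ s, ev1 cf d s = true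
      · obtain ⟨s, hs⟩ := e1
        obtain ⟨h, hh⟩ := caseC s hs e2'
        obtain ⟨k, hk⟩ := iso_symm L hh
        exact hK _ _ k hC hk
      · have e1' : ∀ t, ev1 cf d t = false := fun t => by
          by_contra hcon
          exact e1 ⟨t, by simpa using hcon⟩
        obtain ⟨h, hh⟩ := caseB1 e1' e2'
        obtain ⟨k, hk⟩ := iso_symm L hh
        exact hK _ _ k hB hk
  have hin : Encodable.encode d ∈ IndexSet L K := ⟨V2 d, hKV, hidx⟩
  have hbin : b ∈ IndexSet L K := ⟨B, hB, hb⟩
  obtain ⟨y, hy, -⟩ := hfI _ hin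
  have key : BiEmb L (V2 d) B ↔ SetA y := by
    rw [← idx_iff L hidx hb, hfE _ hin _ hbin y hy yb hyb]
    exact ⟨fun h => h.2 hA, fun h => ⟨fun _ => hA, fun _ => h⟩⟩
  rw [← hcf] at hy
  obtain ⟨k, hk⟩ := evaln_complete.1 hy
  -- evaluation of the events
  have val : ∀ s, evaln s cf (Encodable.encode d) = none ∨
      evaln s cf (Encodable.encode d) = some y := by
    intro s
    rcases hes : evaln s cf (Encodable.encode d) with _ | z
    · exact Or.inl rfl
    · right
      rw [evaln_det (c := cf) (k := s) (l := k) hes hk]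
  have large : ∀ s, k ≤ s → evaln s cf (Encodable.encode d) = some y := fun s hs =>
    evaln_mono hs hk
  have ev1_false : (∀ s, (!(y.unpair.1 == 0) || Hs y.unpair.2 s) = false) →
      ∀ s, ev1 cf d s = false := by
    intro hh s
    unfold ev1
    rcases val s with h | h
    · rw [h]
    · rw [h]; exact hh s
  have ev2_false : (∀ s, (!(y.unpair.1 == 0) && Hs y.unpair.2 s) = false) →
      ∀ s, ev2 cf d s = false := by
    intro hh s
    unfold ev2
    rcases val s with h | h
    · rw [h]
    · rw [h]; exact hh s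
  by_cases hy0 : y.unpair.1 = 0
  · have hev2 : ∀ s, ev2 cf d s = false := ev2_false fun s => by simp [hy0]
    by_cases hH : Hal y.unpair.2
    · obtain ⟨m, hm⟩ := (Hal_iff _).1 hH
      have : ev1 cf d (max k m) = true := by
        unfold ev1
        rw [large _ (le_max_left _ _)]
        simp [Hs_mono (le_max_right k m) hm]
      obtain ⟨h, hh⟩ := caseC _ this hev2
      have hSA : SetA y := Or.inl ⟨hy0, hH⟩
      exact hBC (biemb_trans L (biemb_symm L (key.2 hSA)) (biemb_of_iso L hh))
    · have hev1 : ∀ s, ev1 cf d s = false := ev1_false fun s => by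
        have : Hs y.unpair.2 s = false := by
          by_contra hcon
          exact hH ((Hal_iff _).2 ⟨s, by simpa using hcon⟩)
        simp [hy0, this]
      obtain ⟨h, hh⟩ := caseB1 hev1 hev2
      rcases key.1 (biemb_of_iso L hh) with ⟨_, q⟩ | ⟨q, _⟩
      · exact hH q
      · exact q hy0
  · by_cases hH : Hal y.unpair.2
    · obtain ⟨m, hm⟩ := (Hal_iff _).1 hH
      have : ev2 cf d (max k m) = true := by
        unfold ev2
        rw [large _ (le_max_left _ _)]
        simp [hy0, Hs_mono (le_max_right k m) hm]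
      obtain ⟨h, hh⟩ := caseB2 _ this
      rcases key.1 (biemb_of_iso L hh) with ⟨q, _⟩ | ⟨_, q⟩
      · exact hy0 q
      · exact q hH
    · have hev2 : ∀ s, ev2 cf d s = false := ev2_false fun s => by
        have : Hs y.unpair.2 s = false := by
          by_contra hcon
          exact hH ((Hal_iff _).2 ⟨s, by simpa using hcon⟩)
        simp [this]
      have : ev1 cf d k = true := by
        unfold ev1
        rw [large _ le_rfl]
        simp [hy0]
      obtain ⟨h, hh⟩ := caseC _ this hev2
      have hSA : SetA y := Or.inr ⟨hy0, hH⟩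
      exact hBC (biemb_trans L (biemb_symm L (key.2 hSA)) (biemb_of_iso L hh))

/-- There is a `Σ¹₁` equivalence relation `E` on the natural numbers such that, for every
computable relational language `L` and every class `K` of `L`-structures closed under isomorphism
(hyperarithmetic or not), `E` and bi-embeddability on the computable members of `K` are not
computably equivalent. -/
theorem result :
    ∃ E : ℕ → ℕ → Prop, Equivalence E ∧ IsSigma11 E ∧
      ∀ (L : Lang) (K : Str → Prop), (∀ A B h, K A → IsIso L A B h → K B) →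
        ¬ (CReduces Set.univ E (IndexSet L K) (IdxBiEmb L) ∧
            CReduces (IndexSet L K) (IdxBiEmb L) Set.univ E) := by
  classical
  refine ⟨Rel, ⟨fun _ => Iff.rfl, fun h => h.symm, fun h h' => h.trans h'⟩, Rel_sigma11, ?_⟩
  rintro L K hK ⟨⟨g, hg, hgI, hgE⟩, ⟨f, hf, hfI, hfE⟩⟩
  choose g0 hg0 hg0I using fun x => hgI x (Set.mem_univ x)
  have hg0c : Computable g0 := hg.of_eq_tot hg0
  choose S hSK hSI using hg0I
  have hE : ∀ x x', Rel x x' ↔ BiEmb L (S x) (S x') := fun x x' =>
    (hgE x (Set.mem_univ _) x' (Set.mem_univ _) _ (hg0 x) _ (hg0 x')).trans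
      (idx_iff L (hSI x) (hSI x'))
  obtain ⟨a, ha, ha2⟩ := index_comp L hg0c hSI
  -- a point in the set and a point outside it
  obtain ⟨x0, x1, hx0, hx1⟩ : ∃ x0 x1, SetA x0 ∧ ¬ SetA x1 := by
    by_cases h : Hal 0
    · exact ⟨Nat.pair 0 0, Nat.pair 1 0, (SetA_zero 0).2 h, fun h' => (SetA_one 0).1 h' h⟩
    · exact ⟨Nat.pair 1 0, Nat.pair 0 0, (SetA_one 0).2 h, fun h' => h ((SetA_zero 0).1 h')⟩
  have hnot : ¬ BiEmb L (S x0) (S x1) := fun h => by
    have := (hE x0 x1).2 h
    exact hx1 (this.1 hx0)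
  have hinK : ∀ x, g0 x ∈ IndexSet L K := fun x => ⟨S x, hSK x, hSI x⟩
  -- general claim: if a finite part of `S u` is not realised in `S w`, the class of `u` is r.e.
  have re_claim : ∀ u w, ¬ Rel u w → ¬ AgeLe L (S u) (S w) → REPred fun x => Rel x u := by
    intro u w huw hage
    have : ∃ s, ∀ l, ¬ Good L (S u) s (S w) l := by
      by_contra hcon
      push Not at hcon
      exact hage (age_of_good hcon)
    obtain ⟨s, hs⟩ := this
    have hq : Computable₂ fun (x m : ℕ) => goodb L (a u) (a x) s (Denumerable.ofNat (List ℕ) m) := by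
      have := goodb_comp (α := ℕ × ℕ) L (a := fun _ => a u) (b := fun q => a q.1)
        (s := fun _ => s) (h := fun q => Denumerable.ofNat (List ℕ) q.2)
        (ha.comp (Computable.const u) Computable.snd).to₂
        (ha.comp (Computable.fst.comp Computable.fst) Computable.snd).to₂ (Computable.const s)
        ((Computable.ofNat (List ℕ)).comp Computable.snd)
      exact this.to₂
    refine (re_of_search hq).of_eq fun x => ?_
    constructor
    · rintro ⟨m, hm⟩
      have hgood := (goodb_iff (ha2 u) (ha2 x) s _).1 hm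
      -- `x` is related to `u` or to `w`
      by_contra hxu
      have hxw : Rel x w := by
        unfold Rel at hxu huw ⊢
        by_cases q1 : SetA x <;> by_cases q2 : SetA u <;> by_cases q3 : SetA w <;> simp_all
      obtain ⟨k, hk⟩ := ((hE x w).1 hxw).1
      -- transfer the realisation to `S w`
      refine hs ((List.range s).map (fun y => k (ap (Denumerable.ofNat (List ℕ) m) y))) ?_
      obtain ⟨q1, q2, q3⟩ := hgood
      refine ⟨fun y hy hU => ?_, fun y hy z hz hyU hzU e => ?_, fun i xs hc ht => ?_⟩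
      · rw [ap_map_range _ hy]; exact hk.1 _ (q1 y hy hU)
      · rw [ap_map_range _ hy, ap_map_range _ hz] at e
        exact q2 y hy z hz hyU hzU (hk.2.1 _ (q1 y hy hyU) _ (q1 z hz hzU) e)
      · have hb := (code_bounds hc).2
        rw [q3 i xs hc ht]
        have ht' : Tup L (S x) i (xs.map (ap (Denumerable.ofNat (List ℕ) m))) := by
          refine ⟨ht.1, by simpa using ht.2.1, ?_⟩
          intro y hy
          obtain ⟨z, hz, rfl⟩ := List.mem_map.1 hy
          exact q1 z (hb z hz) (ht.2.2 z hz)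
        rw [hk.2.2 i _ ht', List.map_map]
        have : xs.map (k ∘ ap (Denumerable.ofNat (List ℕ) m)) =
            xs.map (ap ((List.range s).map (fun y => k (ap (Denumerable.ofNat (List ℕ) m) y)))) :=
          List.map_congr_left fun y hy => (ap_map_range _ (hb y hy)).symm
        rw [this]
    · intro hxu
      obtain ⟨k, hk⟩ := ((hE x u).1 hxu).2
      obtain ⟨l, hl⟩ := good_of_age (ageLe_of_emb hk) s
      refine ⟨Encodable.encode l, ?_⟩
      rw [Denumerable.ofNat_encode]
      exact (goodb_iff (ha2 u) (ha2 x) s l).2 hl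
  have hage01 : AgeLe L (S x0) (S x1) := by
    by_contra hcon
    exact SetA_not_re ((re_claim x0 x1 (fun h => hx1 (h.1 hx0)) hcon).of_eq fun x =>
      ⟨fun h => h.2 hx0, fun h => ⟨fun _ => hx0, fun _ => h⟩⟩)
  have hage10 : AgeLe L (S x1) (S x0) := by
    by_contra hcon
    exact SetA_not_core ((re_claim x1 x0 (fun h => hx1 (h.2 hx0)) hcon).of_eq fun x =>
      ⟨fun h hx => hx1 (h.1 hx), fun h => ⟨fun hx => absurd hx h, fun hx => absurd hx hx1⟩⟩)
  obtain ⟨y0, hy0, -⟩ := hfI _ (hinK x0)
  obtain ⟨y1, hy1, -⟩ := hfI _ (hinK x1)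
  by_cases hA0 : SetA y0
  · exact diagonal L K hK f hf hfI hfE (S x0) (S x1) (hSK x0) (hSK x1) _ _ (hSI x0) (hSI x1)
      hnot hage01 hage10 y0 hy0 hA0
  · have hA1 : SetA y1 := by
      by_contra hcon
      have : Rel y0 y1 := ⟨fun h => absurd h hA0, fun h => absurd h hcon⟩
      have h3 := (hfE _ (hinK x0) _ (hinK x1) y0 hy0 y1 hy1).2 this
      exact hnot ((idx_iff L (hSI x0) (hSI x1)).1 h3)
    exact diagonal L K hK f hf hfI hfE (S x1) (S x0) (hSK x1) (hSK x0) _ _ (hSI x1) (hSI x0)
      (fun h => hnot (biemb_symm L h)) hage10 hage01 y1 hy1 hA1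

end Pool.Agent.Results.MP_18fff8_lc.NoBiEmbClass
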